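import Mathlib
import Pool.Agent.Run7.h858.CP.Basic

/-! Project CP (helper858), piece J: the involution in terms of the lift. -/

set_option autoImplicit false
set_option linter.all false

namespace Run7.h834.CP

open Real Pool.Agent.H858.CP
open scoped ContDiff

/-- Cramer's rule -/
lemma cramer {Λ : ℕ → ℝ → Fin 3 → ℝ} {u : ℝ} (hd : det3 (Λ 0 u) (Λ 1 u) (Λ 2 u) = 1) (x : Fin 3 → ℝ) (i : Fin 3) :
    x i = det3 x (Λ 1 u) (Λ 2 u) * Λ 0 u i + cA Λ u x * Λ 1 u i + cB Λ u x * Λ 2 u i := by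
  unfold cA cB
  unfold det3 at hd ⊢
  fin_cases i
  · show x 0 = _ * Λ 0 u 0 + _ * Λ 1 u 0 + _ * Λ 2 u 0
    linear_combination (-(x 0)) * hd
  · show x 1 = _ * Λ 0 u 1 + _ * Λ 1 u 1 + _ * Λ 2 u 1
    linear_combination (-(x 1)) * hd
  · show x 2 = _ * Λ 0 u 2 + _ * Λ 1 u 2 + _ * Λ 2 u 2
    linear_combination (-(x 2)) * hd

lemma jet_comp' {Λ : ℕ → ℝ → Fin 3 → ℝ} (hΛ : Jet3 Λ) (k : ℕ) (i : Fin 3) (u : ℝ) :
    HasDerivAt (fun t => Λ k t i) (Λ (k + 1) u i) u :=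
  (hasDerivAt_pi.mp (hΛ k u)) i

theorem pieceJ : PieceJ := by
  intro a b hc Λ c hΛ hd hcpos hΛc u m ε hε h
  have ha : ∀ t, HasDerivAt a (deriv a t) t := fun t =>
    ((hc.smooth₁.differentiable (by simp)) t).hasDerivAt
  have hb : ∀ t, HasDerivAt b (deriv b t) t := fun t =>
    ((hc.smooth₂.differentiable (by simp)) t).hasDerivAt
  have t0 : ∀ t, tl a b t 0 = -deriv b t := fun t => by simp [tl]
  have t1 : ∀ t, tl a b t 1 = deriv a t := fun t => by simp [tl]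
  have t2 : ∀ t, tl a b t 2 = a t * deriv b t - b t * deriv a t := fun t => by simp [tl]
  have g0 : ∀ t, a t * Λ 0 t 0 + b t * Λ 0 t 1 + Λ 0 t 2 = 0 := by
    intro t
    rw [hΛc t 0, hΛc t 1, hΛc t 2, t0, t1, t2]; ring
  have d0 : ∀ t, deriv a t * Λ 0 t 0 + deriv b t * Λ 0 t 1 = 0 := by
    intro t
    rw [hΛc t 0, hΛc t 1, t0, t1]; ring
  have g1 : ∀ t, a t * Λ 1 t 0 + b t * Λ 1 t 1 + Λ 1 t 2 = 0 := by
    intro t
    have e1 := (((ha t).mul (jet_comp' hΛ 0 0 t)).add ((hb t).mul (jet_comp' hΛ 0 1 t))).add (jet_comp' hΛ 0 2 t)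
    have e2 : HasDerivAt (fun t => a t * Λ 0 t 0 + b t * Λ 0 t 1 + Λ 0 t 2) 0 t := by
      have : (fun t => a t * Λ 0 t 0 + b t * Λ 0 t 1 + Λ 0 t 2) = fun _ => 0 := funext g0
      rw [this]
      exact hasDerivAt_const t 0
    have e3 := e1.unique e2
    have e4 := d0 t
    rw [show (0 + 1 : ℕ) = 1 from rfl] at e3
    linear_combination e3 - e4
  have d1 : ∀ t, deriv a t * Λ 1 t 0 + deriv b t * Λ 1 t 1 + (a t * Λ 2 t 0 + b t * Λ 2 t 1 + Λ 2 t 2) = 0 := by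
    intro t
    have e1 := (((ha t).mul (jet_comp' hΛ 1 0 t)).add ((hb t).mul (jet_comp' hΛ 1 1 t))).add (jet_comp' hΛ 1 2 t)
    have e2 : HasDerivAt (fun t => a t * Λ 1 t 0 + b t * Λ 1 t 1 + Λ 1 t 2) 0 t := by
      have : (fun t => a t * Λ 1 t 0 + b t * Λ 1 t 1 + Λ 1 t 2) = fun _ => 0 := funext g1
      rw [this]
      exact hasDerivAt_const t 0
    have e3 := e1.unique e2
    rw [show (1 + 1 : ℕ) = 2 from rfl] at e3
    linear_combination e3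
  obtain ⟨ρ, hρ⟩ : ∃ ρ, ρ = a u * Λ 2 u 0 + b u * Λ 2 u 1 + Λ 2 u 2 := ⟨_, rfl⟩
  obtain ⟨σ, hσ⟩ : ∃ σ, σ = deriv a u * Λ 2 u 0 + deriv b u * Λ 2 u 1 := ⟨_, rfl⟩
  have G : ∀ x : Fin 3 → ℝ, a u * x 0 + b u * x 1 + x 2 = ρ * cB Λ u x := by
    intro x
    have e0 := cramer (hd u) x 0
    have e1 := cramer (hd u) x 1
    have e2 := cramer (hd u) x 2
    rw [hρ]
    linear_combination a u * e0 + b u * e1 + e2 + det3 x (Λ 1 u) (Λ 2 u) * g0 u + cA Λ u x * g1 u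
  have D : ∀ x : Fin 3 → ℝ, deriv a u * x 0 + deriv b u * x 1 = σ * cB Λ u x - ρ * cA Λ u x := by
    intro x
    have e0 := cramer (hd u) x 0
    have e1 := cramer (hd u) x 1
    rw [hρ, hσ]
    linear_combination deriv a u * e0 + deriv b u * e1 + det3 x (Λ 1 u) (Λ 2 u) * d0 u + cA Λ u x * d1 u
  have hρ0 : ρ ≠ 0 := by
    intro h0
    have := G ![0, 0, 1]
    rw [h0] at this
    simp at this
  -- the quotient at `v`
  have key : ∀ v, (u < v ∧ v < u + 2 * π) ∨ (v < u ∧ u < v + 2 * π) →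
      cB Λ u (Λ 0 v) ≠ 0 ∧ 1 / coord a b u v = cA Λ u (Λ 0 v) / cB Λ u (Λ 0 v) - σ / ρ := by
    intro v hv
    have hN : 0 < (a v - a u) * deriv b v - (b v - b u) * deriv a v := by
      rcases hv with ⟨h1, h2⟩ | ⟨h1, h2⟩
      · have h3 := hc.convex v (u + 2 * π) h2 (by linarith)
        rw [hc.per₁ u, hc.per₂ u] at h3
        linarith
      · have h3 := hc.convex v u h1 h2
        linarith
    obtain ⟨N, hNd⟩ : ∃ N, N = (a v - a u) * deriv b v - (b v - b u) * deriv a v := ⟨_, rfl⟩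
    obtain ⟨E, hEd⟩ : ∃ E, E = deriv a u * deriv b v - deriv b u * deriv a v := ⟨_, rfl⟩
    have hN0 : N ≠ 0 := by rw [hNd]; exact hN.ne'
    have hco : 1 / coord a b u v = E / N := by
      unfold coord
      rw [one_div_div, ← hEd, ← hNd]
    have hcv : c v ≠ 0 := (hcpos v).ne'
    have hGv : c v * N = ρ * cB Λ u (Λ 0 v) := by
      rw [← G (Λ 0 v), hΛc v 0, hΛc v 1, hΛc v 2, t0, t1, t2, hNd]; ring
    have hDv : -(c v * E) = σ * cB Λ u (Λ 0 v) - ρ * cA Λ u (Λ 0 v) := by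
      rw [← D (Λ 0 v), hΛc v 0, hΛc v 1, t0, t1, hEd]; ring
    have hB0 : cB Λ u (Λ 0 v) ≠ 0 := by
      intro h0
      rw [h0, mul_zero] at hGv
      exact (mul_ne_zero hcv hN0) hGv
    refine ⟨hB0, ?_⟩
    rw [hco]
    have e1 : E / N = (c v * E) / (c v * N) := by
      rw [mul_div_mul_left _ _ hcv]
    have e2 : c v * E = ρ * cA Λ u (Λ 0 v) - σ * cB Λ u (Λ 0 v) := by linarith
    rw [e1, e2, hGv]
    field_simp
  refine ⟨m + 2 * (σ / ρ), min ε (2 * π), lt_min hε (by positivity), fun t ht0 ht => ?_⟩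
  have ht1 : t < ε := lt_of_lt_of_le ht (min_le_left _ _)
  have ht2 : t < 2 * π := lt_of_lt_of_le ht (min_le_right _ _)
  obtain ⟨b1, k1⟩ := key (u + t) (Or.inl ⟨by linarith, by linarith⟩)
  obtain ⟨b2, k2⟩ := key (u - t) (Or.inr ⟨by linarith, by linarith⟩)
  have h1 := h t ht0 ht1
  rw [k1, k2] at h1
  have h2 : cA Λ u (Λ 0 (u + t)) / cB Λ u (Λ 0 (u + t)) + cA Λ u (Λ 0 (u - t)) / cB Λ u (Λ 0 (u - t)) =
      m + 2 * (σ / ρ) := by linarith
  rw [← h2]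
  field_simp

end Run7.h834.CP
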