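import Mathlib
import Pool.Agent.Run7.h858.CP.Basic

/-! Project CP (helper858), piece K: `p` is constant. -/

set_option autoImplicit false
set_option linter.all false

namespace Run7.h834.CP

open Real Pool.Agent.H858.CP

/-- a function with zero derivative everywhere is constant -/
lemma const_of_jet (f : ℝ → ℝ) (h : ∀ t, HasDerivAt f 0 t) (x y : ℝ) : f x = f y := by
  apply is_const_of_deriv_eq_zero (fun t => (h t).differentiableAt) (fun t => (h t).deriv)

theorem pieceK : PieceK := by
  intro p hp h3 h12
  -- the square of `p'` is constant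
  have hsq : ∀ x y : ℝ, p 1 x * p 1 x = p 1 y * p 1 y := by
    apply const_of_jet (fun t => p 1 t * p 1 t)
    intro t
    have h := (hp 1 t).mul (hp 1 t)
    have h2 : p 2 t * p 1 t + p 1 t * p 2 t = 0 := by
      have := h12 t
      linarith
    rw [show (1 + 1 : ℕ) = 2 from rfl] at h
    rw [h2] at h
    exact h
  by_cases h0 : p 1 0 = 0
  · have hz : ∀ u, p 1 u = 0 := by
      intro u
      have := hsq u 0
      rw [h0] at this
      simpa using this
    refine ⟨p 0 0, fun u => ⟨?_, hz u⟩⟩
    apply const_of_jet (p 0)
    intro t
    have h := hp 0 t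
    rw [show (0 + 1 : ℕ) = 1 from rfl, hz t] at h
    exact h
  · exfalso
    have hnz : ∀ u, p 1 u ≠ 0 := by
      intro u hu
      have := hsq u 0
      rw [hu] at this
      simp only [mul_zero] at this
      exact h0 (mul_self_eq_zero.mp this.symm)
    have h2 : ∀ u, p 2 u = 0 := fun u => (mul_eq_zero.mp (h12 u)).resolve_left (hnz u)
    have h3' : ∀ u, p 3 u = 0 := by
      intro u
      have h := hp 2 u
      have h' : HasDerivAt (p 2) 0 u := by
        have : p 2 = fun _ => 0 := funext h2
        rw [this]
        exact hasDerivAt_const u 0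
      exact h.unique h'
    have hp0 : ∀ u, p 0 u = 0 := by
      intro u
      have h := h3 u
      rw [h3' u] at h
      have h' : p 0 u * p 1 u = 0 := by linarith
      exact (mul_eq_zero.mp h').resolve_right (hnz u)
    have h := hp 0 0
    have h' : HasDerivAt (p 0) 0 0 := by
      have : p 0 = fun _ => 0 := funext hp0
      rw [this]
      exact hasDerivAt_const 0 0
    exact h0 (h.unique h')

end Run7.h834.CP
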