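import Mathlib
import Pool.Agent.Run7.h858.CP.Basic

/-! Project CP (helper858), pieces P3 and P5: the first two Taylor relations as differential equations for `p`. -/

set_option autoImplicit false
set_option linter.all false

namespace Run7.h834.CP

open Real Pool.Agent.H858.CP

/-- components of the jets -/
lemma jet_comp {Λ : ℕ → ℝ → Fin 3 → ℝ} (hΛ : Jet3 Λ) (k : ℕ) (i : Fin 3) (u : ℝ) :
    HasDerivAt (fun t => Λ k t i) (Λ (k + 1) u i) u :=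
  (hasDerivAt_pi.mp (hΛ k u)) i

/-- one step: if `Λ k = a Λ 0 + b Λ 1 + c Λ 2` then `Λ (k+1)` is its derivative -/
lemma step {Λ : ℕ → ℝ → Fin 3 → ℝ} (hΛ : Jet3 Λ) {x y : ℝ → ℝ}
    (h3 : ∀ u i, Λ 3 u i = x u * Λ 0 u i + y u * Λ 1 u i) (k : ℕ)
    {a b c a' b' c' : ℝ → ℝ} (ha : ∀ u, HasDerivAt a (a' u) u) (hb : ∀ u, HasDerivAt b (b' u) u)
    (hc : ∀ u, HasDerivAt c (c' u) u)
    (hk : ∀ u i, Λ k u i = a u * Λ 0 u i + b u * Λ 1 u i + c u * Λ 2 u i) :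
    ∀ u i, Λ (k + 1) u i = (a' u + c u * x u) * Λ 0 u i + (b' u + a u + c u * y u) * Λ 1 u i +
      (c' u + b u) * Λ 2 u i := by
  intro u i
  have h1 : HasDerivAt (fun t => Λ k t i)
      (a' u * Λ 0 u i + a u * Λ 1 u i + (b' u * Λ 1 u i + b u * Λ 2 u i) + (c' u * Λ 2 u i + c u * Λ 3 u i)) u := by
    have h2 : (fun t => Λ k t i) = fun t => a t * Λ 0 t i + b t * Λ 1 t i + c t * Λ 2 t i :=
      funext fun t => hk t i
    rw [h2]
    exact (((ha u).mul (jet_comp hΛ 0 i u)).add ((hb u).mul (jet_comp hΛ 1 i u))).add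
      ((hc u).mul (jet_comp hΛ 2 i u))
  have h4 := (jet_comp hΛ k i u).unique h1
  rw [h4, h3 u i]
  ring

/-- the coefficients -/
lemma coef {Λ : ℕ → ℝ → Fin 3 → ℝ} {u : ℝ} (hd : det3 (Λ 0 u) (Λ 1 u) (Λ 2 u) = 1) {x : Fin 3 → ℝ} {a b c : ℝ}
    (h : ∀ i, x i = a * Λ 0 u i + b * Λ 1 u i + c * Λ 2 u i) : cA Λ u x = b ∧ cB Λ u x = c := by
  unfold cA cB
  unfold det3 at hd ⊢
  constructor
  · rw [h 0, h 1, h 2]
    linear_combination b * hd
  · rw [h 0, h 1, h 2]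
    linear_combination c * hd

theorem pieceP3 : PieceP3 := by
  intro Λ p q hΛ hp hq hd h3 hr u
  have h3' : ∀ u i, Λ 3 u i = (-(q 0 u)) * Λ 0 u i + (-(p 0 u)) * Λ 1 u i := by
    intro u i; rw [h3 u i]; ring
  have e3 : ∀ u i, Λ 3 u i = (-(q 0 u)) * Λ 0 u i + (-(p 0 u)) * Λ 1 u i + 0 * Λ 2 u i := by
    intro u i; rw [h3' u i]; ring
  have e4 := step hΛ h3' 3 (a := fun u => -(q 0 u)) (b := fun u => -(p 0 u)) (c := fun _ => 0)
    (a' := fun u => -(q 1 u)) (b' := fun u => -(p 1 u)) (c' := fun _ => 0)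
    (fun u => (hq 0 u).neg) (fun u => (hp 0 u).neg) (fun u => hasDerivAt_const u 0) e3
  have e4' : ∀ u i, Λ 4 u i = (-(q 1 u)) * Λ 0 u i + (-(p 1 u) - q 0 u) * Λ 1 u i + (-(p 0 u)) * Λ 2 u i := by
    intro u i
    have := e4 u i
    rw [show (3 + 1 : ℕ) = 4 from rfl] at this
    rw [this]; ring
  have e5 := step hΛ h3' 4 (a := fun u => -(q 1 u)) (b := fun u => -(p 1 u) - q 0 u) (c := fun u => -(p 0 u))
    (a' := fun u => -(q 2 u)) (b' := fun u => -(p 2 u) - q 1 u) (c' := fun u => -(p 1 u))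
    (fun u => (hq 1 u).neg) (fun u => ((hp 1 u).neg).sub (hq 0 u)) (fun u => (hp 0 u).neg) e4'
  have h1 := (coef (hd u) (e4' u)).1
  have h2 := (coef (hd u) (e5 u)).2
  have h5 := hr u
  rw [show (4 + 1 : ℕ) = 5 from rfl] at h2
  rw [h1, h2] at h5
  linarith

theorem pieceP5 : PieceP5 := by
  intro Λ p hΛ hp hd h3 hr u
  have h3' : ∀ u i, Λ 3 u i = (p 1 u / 3) * Λ 0 u i + (-(p 0 u)) * Λ 1 u i := by
    intro u i; rw [h3 u i]; ring
  have e3 : ∀ u i, Λ 3 u i = (p 1 u / 3) * Λ 0 u i + (-(p 0 u)) * Λ 1 u i + 0 * Λ 2 u i := by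
    intro u i; rw [h3' u i]; ring
  have e4 := step hΛ h3' 3 (a := fun u => p 1 u / 3) (b := fun u => -(p 0 u)) (c := fun _ => 0)
    (a' := fun u => p 2 u / 3) (b' := fun u => -(p 1 u)) (c' := fun _ => 0)
    (fun u => (hp 1 u).div_const 3) (fun u => (hp 0 u).neg) (fun u => hasDerivAt_const u 0) e3
  have e4' : ∀ u i, Λ 4 u i = (p 2 u / 3) * Λ 0 u i + (-(2 / 3 * p 1 u)) * Λ 1 u i + (-(p 0 u)) * Λ 2 u i := by
    intro u i
    have := e4 u i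
    rw [show (3 + 1 : ℕ) = 4 from rfl] at this
    rw [this]; ring
  have e5 := step hΛ h3' 4 (a := fun u => p 2 u / 3) (b := fun u => -(2 / 3 * p 1 u)) (c := fun u => -(p 0 u))
    (a' := fun u => p 3 u / 3) (b' := fun u => -(2 / 3 * p 2 u)) (c' := fun u => -(p 1 u))
    (fun u => (hp 2 u).div_const 3) (fun u => ((hp 1 u).const_mul (2 / 3)).neg) (fun u => (hp 0 u).neg) e4'
  have e5' : ∀ u i, Λ 5 u i = (-(p 0 u * p 1 u) / 3 + p 3 u / 3) * Λ 0 u i +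
      (p 0 u * p 0 u - p 2 u / 3) * Λ 1 u i + (-(5 / 3 * p 1 u)) * Λ 2 u i := by
    intro u i
    have := e5 u i
    rw [show (4 + 1 : ℕ) = 5 from rfl] at this
    rw [this]; ring
  have e6 := step hΛ h3' 5 (a := fun u => -(p 0 u * p 1 u) / 3 + p 3 u / 3)
    (b := fun u => p 0 u * p 0 u - p 2 u / 3) (c := fun u => -(5 / 3 * p 1 u))
    (a' := fun u => -(p 1 u * p 1 u + p 0 u * p 2 u) / 3 + p 4 u / 3)
    (b' := fun u => (p 1 u * p 0 u + p 0 u * p 1 u) - p 3 u / 3) (c' := fun u => -(5 / 3 * p 2 u))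
    (fun u => ((((hp 0 u).mul (hp 1 u)).neg).div_const 3).add ((hp 3 u).div_const 3))
    (fun u => ((hp 0 u).mul (hp 0 u)).sub ((hp 2 u).div_const 3))
    (fun u => ((hp 1 u).const_mul (5 / 3)).neg) e5'
  have e6' : ∀ u i, Λ 6 u i = (-(p 0 u * p 2 u) / 3 - 8 / 9 * (p 1 u * p 1 u) + p 4 u / 3) * Λ 0 u i +
      (10 / 3 * (p 0 u * p 1 u)) * Λ 1 u i + (p 0 u * p 0 u - 2 * p 2 u) * Λ 2 u i := by
    intro u i
    have := e6 u i
    rw [show (5 + 1 : ℕ) = 6 from rfl] at this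
    rw [this]; ring
  have e7 := step hΛ h3' 6 (a := fun u => -(p 0 u * p 2 u) / 3 - 8 / 9 * (p 1 u * p 1 u) + p 4 u / 3)
    (b := fun u => 10 / 3 * (p 0 u * p 1 u)) (c := fun u => p 0 u * p 0 u - 2 * p 2 u)
    (a' := fun u => -(p 1 u * p 2 u + p 0 u * p 3 u) / 3 - 8 / 9 * (p 2 u * p 1 u + p 1 u * p 2 u) + p 5 u / 3)
    (b' := fun u => 10 / 3 * (p 1 u * p 1 u + p 0 u * p 2 u))
    (c' := fun u => (p 1 u * p 0 u + p 0 u * p 1 u) - 2 * p 3 u)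
    (fun u => (((((hp 0 u).mul (hp 2 u)).neg).div_const 3).sub
      (((hp 1 u).mul (hp 1 u)).const_mul (8 / 9))).add ((hp 4 u).div_const 3))
    (fun u => ((hp 0 u).mul (hp 1 u)).const_mul (10 / 3))
    (fun u => ((hp 0 u).mul (hp 0 u)).sub ((hp 2 u).const_mul 2)) e6'
  have c3 := (coef (hd u) (e3 u)).1
  have c4 := coef (hd u) (e4' u)
  have c5 := (coef (hd u) (e5' u)).2
  have c6 := (coef (hd u) (e6' u)).1
  have c7 := (coef (hd u) (e7 u)).2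
  rw [show (6 + 1 : ℕ) = 7 from rfl] at c7
  have h := (hr u).r5
  rw [c3, c4.1, c4.2, c5, c6, c7] at h
  linear_combination 2520 * h

end Run7.h834.CP
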